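import Mathlib
import Pool.Agent.H.MP_4617fc_co.Bfs

set_option autoImplicit false

namespace Pool.Agent.H.MP_a20e8c_co

open SimpleGraph Finset
open Pool.Agent.H.MP_4617fc_co (adj_le adj_le' pred eq_of_dist tri)

variable {V : Type} {G : SimpleGraph V}

noncomputable def ed (G : SimpleGraph V) (s : V) : Sym2 V → ℕ :=
  Sym2.lift ⟨fun a b => min (G.dist a s) (G.dist b s), fun _ _ => min_comm _ _⟩

theorem ed_mk (s a b : V) : ed G s s(a, b) = min (G.dist a s) (G.dist b s) := rfl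

structure Good (G : SimpleGraph V) (S J : Finset V) (E : Finset (Sym2 V)) : Prop where
  geoV : ∀ v ∈ J, ∃ s ∈ S, ∃ t ∈ S, G.dist v s + G.dist v t = G.dist s t
  resV : ∀ x ∈ J, ∀ y ∈ J, x ≠ y → ∃ s ∈ S, G.dist x s ≠ G.dist y s
  edge : ∀ e ∈ E, e ∈ G.edgeSet ∧ ∀ v ∈ e, v ∈ J
  geoE : ∀ e ∈ E, ∃ s ∈ S, ∃ t ∈ S, ed G s e + ed G t e + 1 = G.dist s t
  resE : ∀ e ∈ E, ∀ f ∈ E, e ≠ f → ∃ s ∈ S, ed G s e ≠ ed G s f

theorem Good.mono {S S' J : Finset V} {E : Finset (Sym2 V)} (h : Good G S J E) (hs : S ⊆ S') :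
    Good G S' J E := by
  refine ⟨fun v hv => ?_, fun x hx y hy hxy => ?_, h.edge, fun e he => ?_,
    fun e he f hf hef => ?_⟩
  · obtain ⟨s, h1, t, h2, h3⟩ := h.geoV v hv
    exact ⟨s, hs h1, t, hs h2, h3⟩
  · obtain ⟨s, h1, h2⟩ := h.resV x hx y hy hxy
    exact ⟨s, hs h1, h2⟩
  · obtain ⟨s, h1, t, h2, h3⟩ := h.geoE e he
    exact ⟨s, hs h1, t, hs h2, h3⟩
  · obtain ⟨s, h1, h2⟩ := h.resE e he f hf hef
    exact ⟨s, hs h1, h2⟩

inductive Dn (W : V → Prop) (p : V → V) (x : V) : V → Prop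
  | refl : Dn W p x x
  | step (s : V) : W s → Dn W p x (p s) → Dn W p x s

/-- separation inside the interval between `σ` and `ρ` -/
theorem sep [Fintype V] (hc : G.Connected) {σ ρ : V} {W S : V → Prop} {p : V → V} (hσ : S σ)
    (hI : ∀ v, W v → G.dist ρ v + G.dist σ v = G.dist ρ σ)
    (hp : ∀ v, W v → G.Adj v (p v) ∧ G.dist ρ (p v) + 1 = G.dist ρ v)
    (h1 : ∀ u v, G.Adj u v → G.dist ρ v = G.dist ρ u + 1 → W v → p v ≠ u → S u)
    (h2 : ∀ u v, G.Adj u v → G.dist ρ v = G.dist ρ u + 1 →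
      G.dist ρ v + G.dist σ v = G.dist ρ σ → W u → ¬ W v → S u)
    {x y : V} (hx : W x) (hne : x ≠ y) (hl : G.dist ρ x = G.dist ρ y) :
    ∃ t, S t ∧ ((G.dist x t + G.dist ρ x = G.dist ρ t ∧ G.dist x t < G.dist y t) ∨
      (G.dist y t + G.dist ρ x = G.dist ρ t ∧ G.dist y t < G.dist x t)) := by
  classical
  have pW : ∀ s, Dn W p x s → W s := by
    intro s h
    cases h with
    | refl => exact hx
    | step _ h _ => exact h
  have pD : ∀ s, Dn W p x s → G.dist x s + G.dist ρ x = G.dist ρ s := by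
    intro s h
    induction h with
    | refl => simp
    | step s hs _ ih =>
      have a1 := adj_le hc x (hp s hs).1
      have a2 := (hp s hs).2
      have a3 := tri hc ρ x s
      omega
  have leave : ∀ k t, G.dist x t = k → G.dist ρ t + G.dist σ t = G.dist ρ σ →
      G.dist x t + G.dist ρ x = G.dist ρ t → ¬ Dn W p x t →
      ∃ u, Dn W p x u ∧ S u ∧ G.dist ρ u < G.dist ρ t := by
    intro k
    induction k with
    | zero =>
      intro t h _ _ hn
      exact absurd (eq_of_dist hc h ▸ Dn.refl) hn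
    | succ k ih =>
      intro t h hi hd hn
      obtain ⟨t', ha, hl'⟩ := pred hc x t (by rintro rfl; simp at h)
      have a1 := adj_le hc ρ ha
      have a2 := tri hc ρ x t'
      have a3 := adj_le hc σ ha.symm
      have a4 := tri hc ρ t' σ
      rw [G.dist_comm (u := t')] at a4
      by_cases hD : Dn W p x t'
      · refine ⟨t', hD, ?_, by omega⟩
        by_cases hw : W t
        · exact h1 t' t ha.symm (by omega) hw (fun e => hn (Dn.step t hw (e ▸ hD)))
        · exact h2 t' t ha.symm (by omega) hi (pW _ hD) hw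
      · obtain ⟨u, b1, b2, b3⟩ := ih t' (by omega) (by omega) (by omega) hD
        exact ⟨u, b1, b2, by omega⟩
  have enter : ∀ k s, G.dist y s = k → Dn W p x s → G.dist y s + G.dist ρ y = G.dist ρ s →
      ∃ u, S u ∧ ¬ Dn W p x u ∧ G.dist ρ u + G.dist σ u = G.dist ρ σ ∧
        G.dist y u + G.dist ρ y = G.dist ρ u ∧ G.dist ρ u < G.dist ρ s := by
    intro k
    induction k with
    | zero =>
      intro s h hD _
      have e := eq_of_dist hc h
      subst e
      have := pD _ hD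
      exact absurd (eq_of_dist hc (by omega)) hne
    | succ k ih =>
      intro s h hD hd
      obtain ⟨s', ha, hl'⟩ := pred hc y s (by rintro rfl; simp at h)
      have a1 := adj_le hc ρ ha
      have a2 := tri hc ρ y s'
      have a3 := adj_le hc σ ha.symm
      have a4 := tri hc ρ s' σ
      rw [G.dist_comm (u := s')] at a4
      have a5 := hI s (pW s hD)
      by_cases hD' : Dn W p x s'
      · obtain ⟨u, b1, b2, b3, b4, b5⟩ := ih s' (by omega) hD' (by omega)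
        exact ⟨u, b1, b2, b3, b4, by omega⟩
      · refine ⟨s', h1 s' s ha.symm (by omega) (pW s hD) ?_, hD', by omega, by omega, by omega⟩
        intro e
        cases hD with
        | refl => omega
        | step _ _ h => exact hD' (e ▸ h)
  obtain ⟨s0, hs0⟩ : ∃ s, Dn W p x s ∧ S s := by
    by_cases h : Dn W p x σ
    · exact ⟨σ, h, hσ⟩
    · have a := hI x hx
      obtain ⟨u, b1, b2, -⟩ := leave _ σ rfl (by simp)
        (by rw [G.dist_comm (u := x)]; omega) h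
      exact ⟨u, b1, b2⟩
  obtain ⟨s, hs, hm⟩ := exists_min_image (univ.filter (fun s => Dn W p x s ∧ S s))
    (fun s => G.dist ρ s) ⟨s0, by simp [hs0]⟩
  simp only [mem_filter, mem_univ, true_and] at hs hm
  have c1 := pD s hs.1
  have c2 := tri hc ρ y s
  by_cases hd : G.dist y s + G.dist ρ y = G.dist ρ s
  · obtain ⟨u, b1, b2, b3, b4, b5⟩ := enter _ s rfl hs.1 hd
    have c3 := tri hc ρ x u
    by_cases hd' : G.dist x u + G.dist ρ x = G.dist ρ u
    · obtain ⟨u', d1, d2, d3⟩ := leave _ u rfl b3 hd' b2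
      have := hm u' ⟨d1, d2⟩
      omega
    · exact ⟨u, b1, Or.inr ⟨by omega, by omega⟩⟩
  · exact ⟨s, hs.2, Or.inl ⟨c1, by omega⟩⟩

theorem lev_eq {ρ a b c d : V} (h : s(a, b) = s(c, d)) (h1 : G.dist ρ b = G.dist ρ a + 1)
    (h2 : G.dist ρ d = G.dist ρ c + 1) : a = c ∧ b = d := by
  rcases Sym2.eq_iff.1 h with h | ⟨rfl, rfl⟩
  · exact h
  · omega

theorem step [Fintype V] [DecidableEq V] (hc : G.Connected) {S J : Finset V}
    {E : Finset (Sym2 V)} (hG : Good G S J E) {σ ρ q : V} (hσ : σ ∈ S) (hρ : ρ ∈ S) (hρJ : ρ ∈ J)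
    (hq : G.Adj σ q) (hq' : G.dist ρ q + 1 = G.dist ρ σ) (hqE : s(q, σ) ∉ E)
    (H : ∀ u, s(u, σ) ∈ E → G.dist ρ u + 1 = G.dist ρ σ → u ∈ S) :
    ∃ (S1 J1 : Finset V) (E1 : Finset (Sym2 V)), Good G S1 J1 E1 ∧ S ⊆ S1 ∧ J ⊆ J1 ∧ σ ∈ J1 ∧
      S1.card + J1.card + E.card + (if σ ∈ J then 1 else 0) ≤ S.card + J.card + E1.card ∧
      ∀ u, s(u, σ) ∈ E1 → s(u, σ) ∈ E ∨ (G.dist ρ u + 1 = G.dist ρ σ ∧ (u = q ∨ u ∈ S1)) := by
  classical
  have hσρ : σ ≠ ρ := by
    rintro rfl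
    simp at hq'
  obtain ⟨W, hW⟩ : ∃ W : Finset V, ∀ v, v ∈ W ↔
      (G.dist ρ v + G.dist σ v = G.dist ρ σ ∧ v ∉ J) :=
    ⟨univ.filter (fun v => G.dist ρ v + G.dist σ v = G.dist ρ σ ∧ v ∉ J), by simp⟩
  obtain ⟨W', hW'⟩ : ∃ W' : Finset V, W' = insert σ W := ⟨_, rfl⟩
  have mW' : ∀ v, v ∈ W' ↔ v = σ ∨ v ∈ W := by simp [hW']
  have hI : ∀ v, v ∈ W' → G.dist ρ v + G.dist σ v = G.dist ρ σ := by
    intro v hv
    rcases (mW' v).1 hv with rfl | h
    · simp
    · exact ((hW v).1 h).1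
  have hp0 : ∀ v, ∃ u, (v ≠ ρ → G.Adj v u ∧ G.dist ρ u + 1 = G.dist ρ v) ∧ (v = σ → u = q) := by
    intro v
    by_cases e : v = σ
    · exact ⟨q, fun _ => e ▸ ⟨hq, hq'⟩, fun _ => rfl⟩
    · by_cases e' : v = ρ
      · exact ⟨v, fun h => absurd e' h, fun h => absurd h e⟩
      · obtain ⟨u, hu⟩ := pred hc ρ v e'
        exact ⟨u, fun _ => hu, fun h => absurd h e⟩
  choose p hp1 hp2 using hp0
  have hp : ∀ v, v ∈ W' → G.Adj v (p v) ∧ G.dist ρ (p v) + 1 = G.dist ρ v := by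
    intro v hv
    refine hp1 v ?_
    rcases (mW' v).1 hv with rfl | h
    · exact hσρ
    · rintro rfl
      exact ((hW v).1 h).2 hρJ
  obtain ⟨X, hX⟩ : ∃ X : Finset V, ∀ u, u ∈ X ↔ (u ∉ S ∧ ∃ v, G.Adj u v ∧
      G.dist ρ v + G.dist σ v = G.dist ρ σ ∧ G.dist ρ v = G.dist ρ u + 1 ∧
      ((v ∈ W' ∧ p v ≠ u) ∨ (u ∈ W ∧ v ∉ W'))) :=
    ⟨univ.filter (fun u => u ∉ S ∧ ∃ v, G.Adj u v ∧
      G.dist ρ v + G.dist σ v = G.dist ρ σ ∧ G.dist ρ v = G.dist ρ u + 1 ∧
      ((v ∈ W' ∧ p v ≠ u) ∨ (u ∈ W ∧ v ∉ W'))), by simp⟩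
  have hw0 : ∀ u, ∃ v, u ∈ X → G.Adj u v ∧
      G.dist ρ v + G.dist σ v = G.dist ρ σ ∧ G.dist ρ v = G.dist ρ u + 1 ∧
      ((v ∈ W' ∧ p v ≠ u) ∨ (u ∈ W ∧ v ∉ W')) := by
    intro u
    by_cases h : u ∈ X
    · obtain ⟨v, hv⟩ := ((hX u).1 h).2
      exact ⟨v, fun _ => hv⟩
    · exact ⟨u, fun h' => absurd h' h⟩
  choose w hw using hw0
  obtain ⟨S1, hS1⟩ : ∃ S1 : Finset V, S1 = S ∪ X := ⟨_, rfl⟩
  obtain ⟨J1, hJ1⟩ : ∃ J1 : Finset V, J1 = J ∪ W := ⟨_, rfl⟩
  obtain ⟨E1, hE1⟩ : ∃ E1 : Finset (Sym2 V), E1 = E ∪ W'.image (fun v => s(p v, v)) ∪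
      X.image (fun u => s(u, w u)) := ⟨_, rfl⟩
  have sS : S ⊆ S1 := hS1 ▸ subset_union_left
  have sX : X ⊆ S1 := hS1 ▸ subset_union_right
  have sJ : J ⊆ J1 := hJ1 ▸ subset_union_left
  have IJ : ∀ v, G.dist ρ v + G.dist σ v = G.dist ρ σ → v ∈ J1 := by
    intro v hv
    rw [hJ1, mem_union]
    by_cases h : v ∈ J
    · exact Or.inl h
    · exact Or.inr ((hW v).2 ⟨hv, h⟩)
  have upI : ∀ u v, G.Adj u v → G.dist ρ v + G.dist σ v = G.dist ρ σ →
      G.dist ρ v = G.dist ρ u + 1 → G.dist ρ u + G.dist σ u = G.dist ρ σ := by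
    intro u v h1 h2 h3
    have a3 := adj_le hc σ h1
    have a4 := tri hc ρ u σ
    rw [G.dist_comm (u := u)] at a4
    omega
  have h1 : ∀ u v, G.Adj u v → G.dist ρ v = G.dist ρ u + 1 → v ∈ W' → p v ≠ u → u ∈ S1 := by
    intro u v a1 a2 a3 a4
    by_cases h : u ∈ S
    · exact sS h
    · exact sX ((hX u).2 ⟨h, v, a1, hI v a3, a2, Or.inl ⟨a3, a4⟩⟩)
  have h2 : ∀ u v, G.Adj u v → G.dist ρ v = G.dist ρ u + 1 →
      G.dist ρ v + G.dist σ v = G.dist ρ σ → u ∈ W' → v ∉ W' → u ∈ S1 := by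
    intro u v a1 a2 a3 a4 a5
    by_cases h : u ∈ S
    · exact sS h
    · refine sX ((hX u).2 ⟨h, v, a1, a3, a2, Or.inr ⟨?_, a5⟩⟩)
      rcases (mW' u).1 a4 with rfl | h'
      · exact absurd hσ h
      · exact h'
  have hsep : ∀ x y, x ∈ W' → x ≠ y → G.dist ρ x = G.dist ρ y →
      ∃ t, t ∈ S1 ∧ ((G.dist x t + G.dist ρ x = G.dist ρ t ∧ G.dist x t < G.dist y t) ∨
      (G.dist y t + G.dist ρ x = G.dist ρ t ∧ G.dist y t < G.dist x t)) :=
    fun x y hx hne hl => sep hc (W := fun v => v ∈ W') (S := fun v => v ∈ S1) (sS hσ) hI hp h1 h2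
      hx hne hl
  obtain ⟨New, hNew⟩ : ∃ New : V → V → Prop, ∀ u x, New u x ↔ (G.Adj u x ∧
      G.dist ρ x + G.dist σ x = G.dist ρ σ ∧ G.dist ρ x = G.dist ρ u + 1 ∧
      ((x ∈ W' ∧ p x = u) ∨ (u ∈ X ∧ x = w u))) := ⟨_, fun _ _ => Iff.rfl⟩
  have mE1 : ∀ e ∈ E1, e ∈ E ∨ ∃ u x, New u x ∧ e = s(u, x) := by
    intro e he
    rw [hE1, mem_union, mem_union, mem_image, mem_image] at he
    rcases he with (he | ⟨v, hv, rfl⟩) | ⟨u, hu, rfl⟩
    · exact Or.inl he
    · exact Or.inr ⟨p v, v, (hNew _ _).2 ⟨(hp v hv).1.symm, hI v hv, (hp v hv).2.symm,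
        Or.inl ⟨hv, rfl⟩⟩, rfl⟩
    · obtain ⟨a1, a2, a3, -⟩ := hw u hu
      exact Or.inr ⟨u, w u, (hNew _ _).2 ⟨a1, a2, a3, Or.inr ⟨hu, rfl⟩⟩, rfl⟩
  have edge1 : ∀ e ∈ E1, e ∈ G.edgeSet ∧ ∀ v ∈ e, v ∈ J1 := by
    intro e he
    rcases mE1 e he with h | ⟨u, x, h, rfl⟩
    · exact ⟨(hG.edge e h).1, fun v hv => sJ ((hG.edge e h).2 v hv)⟩
    · obtain ⟨a1, a2, a3, -⟩ := (hNew u x).1 h
      refine ⟨a1, fun v hv => ?_⟩
      rcases Sym2.mem_iff.1 hv with rfl | rfl
      · exact IJ _ (upI _ _ a1 a2 a3)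
      · exact IJ _ a2
  have newres : ∀ u x, New u x → ∀ f ∈ E1, s(u, x) ≠ f →
      ∃ s ∈ S1, ed G s s(u, x) ≠ ed G s f := by
    intro u x hN f hf hne
    obtain ⟨a1, a2, a3, a4⟩ := (hNew u x).1 hN
    have a5 := upI u x a1 a2 a3
    by_contra hn
    push Not at hn
    obtain ⟨v, y, rfl, b1, b2, b3, b4⟩ : ∃ v y, f = s(v, y) ∧ G.Adj v y ∧
        G.dist ρ y + G.dist σ y = G.dist ρ σ ∧ G.dist ρ y = G.dist ρ v + 1 ∧
        G.dist ρ x = G.dist ρ y := by
      have e1 := hn σ (sS hσ)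
      have e2 := hn ρ (sS hρ)
      have e3 := (edge1 f hf).1
      induction f using Sym2.ind with
      | _ a b =>
        have e4 : G.Adj a b := e3
        rw [ed_mk, ed_mk] at e1 e2
        have c1 := tri hc ρ a σ
        have c2 := tri hc ρ b σ
        rw [G.dist_comm (u := u), G.dist_comm (u := x), G.dist_comm (u := a),
          G.dist_comm (u := b)] at e1 e2
        rw [G.dist_comm (u := a)] at c1
        rw [G.dist_comm (u := b)] at c2
        have c3 := adj_le hc ρ e4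
        have c4 := adj_le hc ρ e4.symm
        have c5 := adj_le hc σ e4
        have c6 := adj_le hc σ e4.symm
        by_cases hh : G.dist ρ a ≤ G.dist ρ b
        · exact ⟨a, b, rfl, e4, by omega, by omega, by omega⟩
        · exact ⟨b, a, Sym2.eq_swap, e4.symm, by omega, by omega, by omega⟩
    have z : ∀ a b c d : V, a ∈ S1 → c ≠ a → d ≠ a → ed G a s(a, b) ≠ ed G a s(c, d) := by
      intro a b c d _ k1 k2
      have := hc.pos_dist_of_ne k1
      have := hc.pos_dist_of_ne k2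
      rw [ed_mk, ed_mk, SimpleGraph.dist_self]
      omega
    by_cases exy : x = y
    · subst exy
      have huv : u ≠ v := by
        rintro rfl
        exact hne rfl
      rcases a4 with ⟨k1, k2⟩ | ⟨k1, -⟩
      · have k3 := h1 v x b1 b3 k1 (fun e => huv (k2.symm.trans e))
        exact z v x u x k3 huv b1.ne.symm (hn v k3).symm
      · exact z u x v x (sX k1) huv.symm a1.ne.symm (hn u (sX k1))
    · by_cases hxy : x ∈ W' ∨ y ∈ W'
      · have : ∃ t, t ∈ S1 ∧ ((G.dist x t + G.dist ρ x = G.dist ρ t ∧ G.dist x t < G.dist y t) ∨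
            (G.dist y t + G.dist ρ x = G.dist ρ t ∧ G.dist y t < G.dist x t)) := by
          rcases hxy with h | h
          · exact hsep x y h exy b4
          · obtain ⟨t, k1, k2⟩ := hsep y x h (Ne.symm exy) b4.symm
            exact ⟨t, k1, by omega⟩
        obtain ⟨t, k1, k2⟩ := this
        have k3 := hn t k1
        rw [ed_mk, ed_mk] at k3
        have c1 := tri hc ρ u t
        have c2 := tri hc ρ v t
        omega
      · push Not at hxy
        rcases a4 with ⟨k1, -⟩ | ⟨k1, k2⟩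
        · exact hxy.1 k1
        by_cases huv : v = u
        · subst huv
          have k3 : v ∈ W := by
            rcases (hw v k1).2.2.2 with h | h
            · exact absurd (k2 ▸ h.1) hxy.1
            · exact h.1
          rcases mE1 _ hf with h | ⟨u', x', h, e⟩
          · exact ((hW v).1 k3).2 ((hG.edge _ h).2 v (by simp))
          · obtain ⟨-, -, d3, d4⟩ := (hNew u' x').1 h
            obtain ⟨rfl, rfl⟩ := lev_eq e b3 d3
            rcases d4 with d4 | d4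
            · exact hxy.2 d4.1
            · exact exy (k2.trans d4.2.symm)
        · exact z u x v y (sX k1) huv (by rintro rfl; omega) (hn u (sX k1))
  have hG1 := hG.mono sS
  refine ⟨S1, J1, E1, ⟨?_, ?_, edge1, ?_, ?_⟩, sS, sJ, IJ σ (by simp), ?_, ?_⟩
  · intro v hv
    rw [hJ1, mem_union] at hv
    rcases hv with h | h
    · exact hG1.geoV v h
    · refine ⟨ρ, sS hρ, σ, sS hσ, ?_⟩
      have := ((hW v).1 h).1
      rwa [G.dist_comm (u := v), G.dist_comm (u := v)]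
  · have key : ∀ x y, x ∈ W → x ≠ y → ∃ s ∈ S1, G.dist x s ≠ G.dist y s := by
      intro x y hx hne
      by_cases hl : G.dist ρ x = G.dist ρ y
      · obtain ⟨t, k1, k2⟩ := hsep x y ((mW' x).2 (Or.inr hx)) hne hl
        exact ⟨t, k1, by omega⟩
      · exact ⟨ρ, sS hρ, by rwa [G.dist_comm (u := x), G.dist_comm (u := y)]⟩
    intro x hx y hy hne
    rw [hJ1, mem_union] at hx hy
    rcases hx with hx | hx
    · rcases hy with hy | hy
      · exact hG1.resV x hx y hy hne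
      · obtain ⟨s, k1, k2⟩ := key y x hy hne.symm
        exact ⟨s, k1, k2.symm⟩
    · exact key x y hx hne
  · intro e he
    rcases mE1 e he with h | ⟨u, x, h, rfl⟩
    · exact hG1.geoE e h
    · obtain ⟨a1, a2, a3, -⟩ := (hNew u x).1 h
      have a5 := upI u x a1 a2 a3
      refine ⟨ρ, sS hρ, σ, sS hσ, ?_⟩
      rw [ed_mk, ed_mk, G.dist_comm (u := u), G.dist_comm (u := u), G.dist_comm (u := x),
        G.dist_comm (u := x)]
      omega
  · intro e he f hf hne
    rcases mE1 e he with h | ⟨u, x, h, rfl⟩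
    · rcases mE1 f hf with h' | ⟨u, x, h', rfl⟩
      · exact hG1.resE e h f h' hne
      · obtain ⟨s, k1, k2⟩ := newres u x h' e he hne.symm
        exact ⟨s, k1, k2.symm⟩
    · exact newres u x h f hf hne
  · have c1 : S1.card ≤ S.card + X.card := hS1 ▸ card_union_le _ _
    have c2 : J1.card ≤ J.card + W.card := hJ1 ▸ card_union_le _ _
    have c3 : W'.card = W.card + (if σ ∈ J then 1 else 0) := by
      rw [hW']
      split_ifs with h
      · exact card_insert_of_notMem (fun h' => ((hW σ).1 h').2 h)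
      · rw [insert_eq_of_mem ((hW σ).2 ⟨by simp, h⟩)]
        rfl
    have c4 : (W'.image (fun v => s(p v, v))).card = W'.card := by
      refine card_image_of_injOn (fun a ha b hb e => ?_)
      exact (lev_eq e (hp a ha).2.symm (hp b hb).2.symm).2
    have c5 : (X.image (fun u => s(u, w u))).card = X.card := by
      refine card_image_of_injOn (fun a ha b hb e => ?_)
      exact (lev_eq e (hw a ha).2.2.1 (hw b hb).2.2.1).1
    have d1 : Disjoint E (W'.image (fun v => s(p v, v))) := by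
      rw [Finset.disjoint_left]
      intro e he he'
      obtain ⟨v, hv, rfl⟩ := mem_image.1 he'
      rcases (mW' v).1 hv with h | h
      · rw [hp2 v h, h] at he
        exact hqE he
      · exact ((hW v).1 h).2 ((hG.edge _ he).2 v (by simp))
    have d2 : Disjoint (E ∪ W'.image (fun v => s(p v, v))) (X.image (fun u => s(u, w u))) := by
      rw [Finset.disjoint_right]
      intro e he he'
      obtain ⟨u, hu, rfl⟩ := mem_image.1 he
      obtain ⟨a1, a2, a3, a4⟩ := hw u hu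
      rcases mem_union.1 he' with h | h
      · rcases a4 with a4 | a4
        · rcases (mW' _).1 a4.1 with k | k
          · rw [k] at h a3
            exact ((hX u).1 hu).1 (H u h a3.symm)
          · exact ((hW _).1 k).2 ((hG.edge _ h).2 _ (by simp))
        · exact ((hW _).1 a4.1).2 ((hG.edge _ h).2 _ (by simp))
      · obtain ⟨v, hv, e⟩ := mem_image.1 h
        obtain ⟨k1, k2⟩ := lev_eq e (hp v hv).2.symm a3
        rcases a4 with a4 | a4
        · exact a4.2 (k2 ▸ k1)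
        · exact a4.2 (k2 ▸ hv)
    rw [hE1, card_union_of_disjoint d2, card_union_of_disjoint d1]
    omega
  · intro u hu
    rcases mE1 _ hu with h | ⟨u', x', h, e⟩
    · exact Or.inl h
    · right
      obtain ⟨a1, a2, a3, a4⟩ := (hNew u' x').1 h
      rcases Sym2.eq_iff.1 e with ⟨rfl, rfl⟩ | ⟨rfl, rfl⟩
      · refine ⟨a3.symm, ?_⟩
        rcases a4 with a4 | a4
        · exact Or.inl (a4.2.symm.trans (hp2 _ rfl))
        · exact Or.inr (sX a4.1)
      · omega

end Pool.Agent.H.MP_a20e8c_co
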