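import Mathlib
import Pool.Agent.H.MP_a20e8c_co.Step

set_option autoImplicit false

namespace Pool.Agent.H.MP_a20e8c_co

open SimpleGraph Finset
open Pool.Agent.H.MP_4617fc_co (adj_le adj_le' pred eq_of_dist tri)

variable {V : Type} {G : SimpleGraph V}

theorem round [Fintype V] [DecidableEq V] (hc : G.Connected) {S J : Finset V}
    {E : Finset (Sym2 V)} (hG : Good G S J E) {r : V} (hr : r ∈ S) (hrJ : r ∈ J) {y : V}
    (hy : y ∉ J) (hnd : ¬ ∃ u, G.Adj y u ∧ ∀ s ∈ S, G.dist u s + 1 = G.dist y s) :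
    ∃ (S1 J1 : Finset V) (E1 : Finset (Sym2 V)), Good G S1 J1 E1 ∧ S ⊆ S1 ∧ J ⊆ J1 ∧
      J.card < J1.card ∧ S1.card + J1.card + E.card ≤ S.card + J.card + E1.card := by
  classical
  have lt : ∀ (J1 : Finset V) (z : V), J ⊆ J1 → z ∈ J1 → z ∉ J → J.card < J1.card :=
    fun J1 z h1 h2 h3 => card_lt_card ⟨h1, fun h => h3 (h h2)⟩
  have noE : ∀ z u, z ∉ J → s(u, z) ∉ E := fun z u hz h => hz ((hG.edge _ h).2 z (by simp))
  by_cases hS : ∃ s ∈ S, s ∉ J
  · obtain ⟨s, hs, hsJ⟩ := hS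
    obtain ⟨q, hq, hq'⟩ := pred hc r s (by rintro rfl; exact hsJ hrJ)
    obtain ⟨S1, J1, E1, a1, a2, a3, a4, a5, -⟩ := step hc hG hs hr hrJ hq hq' (noE s q hsJ)
      (fun u h => absurd h (noE s u hsJ))
    exact ⟨S1, J1, E1, a1, a2, a3, lt J1 s a3 a4 hsJ, by omega⟩
  · push Not at hS
    have ne : ∀ s ∈ S, y ≠ s := fun s hs e => hy (e ▸ hS s hs)
    obtain ⟨A, hA⟩ : ∃ A : V → Finset V, ∀ u s, s ∈ A u ↔
        (s ∈ S ∧ G.dist s u + 1 = G.dist s y) :=
      ⟨fun u => S.filter (fun s => G.dist s u + 1 = G.dist s y), by simp⟩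
    obtain ⟨u0, hu0, -⟩ := pred hc r y (ne r hr)
    obtain ⟨y1, hy1, hm⟩ := exists_max_image (univ.filter (fun u => G.Adj y u))
      (fun u => (A u).card) ⟨u0, by simp [hu0]⟩
    simp only [mem_filter, mem_univ, true_and] at hy1 hm
    obtain ⟨s, hs, hs1⟩ : ∃ s ∈ S, s ∉ A y1 := by
      by_contra h
      push Not at h
      refine hnd ⟨y1, hy1, fun s hs => ?_⟩
      have := ((hA y1 s).1 (h s hs)).2
      rwa [G.dist_comm (u := y1), G.dist_comm (u := y)]
    obtain ⟨y2, hy2, hy2'⟩ := pred hc s y (ne s hs)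
    obtain ⟨t, ht1, ht2⟩ : ∃ t ∈ A y1, t ∉ A y2 := by
      by_contra h
      push Not at h
      have h1 : (A y1).card < (A y2).card :=
        card_lt_card ⟨h, fun h' => hs1 (h' ((hA y2 s).2 ⟨hs, hy2'⟩))⟩
      have := hm y2 hy2
      omega
    obtain ⟨ht, ht'⟩ := (hA y1 t).1 ht1
    have sub : S ⊆ insert y S := subset_insert y S
    obtain ⟨S1, J1, E1, a1, a2, a3, a4, a5, a6⟩ := step hc (hG.mono sub) (mem_insert_self y S)
      (sub ht) (hS t ht) hy1 ht' (noE y y1 hy) (fun u h => absurd h (noE y u hy))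
    obtain ⟨S2, J2, E2, b1, b2, b3, b4, b5, -⟩ := step hc a1 (a2 (mem_insert_self y S))
      (a2 (sub hs)) (a3 (hS s hs)) hy2 hy2'
      (by
        intro h
        rcases a6 y2 h with h' | h'
        · exact noE y y2 hy h'
        · exact ht2 ((hA y2 t).2 ⟨ht, h'.1⟩))
      (by
        intro u h hu
        rcases a6 u h with h' | ⟨-, h' | h'⟩
        · exact absurd h' (noE y u hy)
        · exact absurd ((hA y1 s).2 ⟨hs, h' ▸ hu⟩) hs1
        · exact h')
    refine ⟨S2, J2, E2, b1, sub.trans (a2.trans b2), a3.trans b3, lt J2 y (a3.trans b3) b4 hy, ?_⟩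
    rw [if_pos a4] at b5
    have := card_insert_le y S
    omega

theorem final [Fintype V] [DecidableEq V] (hc : G.Connected) {r : V} :
    ∀ (k : ℕ) (S J : Finset V) (E : Finset (Sym2 V)), Fintype.card V - J.card = k →
      Good G S J E → r ∈ S → r ∈ J →
      ∃ (S1 J1 : Finset V) (E1 : Finset (Sym2 V)), Good G S1 J1 E1 ∧ S ⊆ S1 ∧
        S1.card + J1.card + E.card ≤ S.card + J.card + E1.card ∧
        ∀ y, y ∉ J1 → ∃ u, G.Adj y u ∧ ∀ s ∈ S1, G.dist u s + 1 = G.dist y s := by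
  intro k
  induction k using Nat.strong_induction_on with
  | _ k ih =>
    intro S J E hk hG hr hrJ
    by_cases h : ∀ y, y ∉ J → ∃ u, G.Adj y u ∧ ∀ s ∈ S, G.dist u s + 1 = G.dist y s
    · exact ⟨S, J, E, hG, Subset.refl _, le_refl _, h⟩
    · rw [not_forall] at h
      obtain ⟨y, hy⟩ := h
      rw [Classical.not_imp] at hy
      obtain ⟨S1, J1, E1, a1, a2, a3, a4, a5⟩ := round hc hG hr hrJ hy.1 hy.2
      have := card_le_univ J1
      obtain ⟨S2, J2, E2, b1, b2, b3, b4⟩ := ih _ (by omega) S1 J1 E1 rfl a1 (a2 hr) (a3 hrJ)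
      exact ⟨S2, J2, E2, b1, a2.trans b2, by omega, b4⟩

theorem greedy [Fintype V] [DecidableEq V] [DecidableRel G.Adj] (hc : G.Connected) :
    ∀ (k : ℕ) (S : Finset V) (E : Finset (Sym2 V)), G.edgeFinset.card - E.card = k →
      E ⊆ G.edgeFinset → (∀ e ∈ E, ∀ f ∈ E, e ≠ f → ∃ s ∈ S, ed G s e ≠ ed G s f) →
      ∃ S1 : Finset V, S1.card + E.card ≤ S.card + G.edgeFinset.card ∧
        ∀ e ∈ G.edgeFinset, ∀ f ∈ G.edgeFinset, e ≠ f → ∃ s ∈ S1, ed G s e ≠ ed G s f := by
  intro k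
  induction k using Nat.strong_induction_on with
  | _ k ih =>
    intro S E hk hsub hres
    by_cases h : G.edgeFinset ⊆ E
    · have := card_le_card hsub
      exact ⟨S, by omega, fun e he f hf => hres e (h he) f (h hf)⟩
    · obtain ⟨e, he, heE⟩ := not_subset.1 h
      have sepa : ∀ f ∈ G.edgeFinset, e ≠ f → ∃ t, ed G t e ≠ ed G t f := by
        intro f hf hne
        induction e using Sym2.ind with
        | _ a b =>
        induction f using Sym2.ind with
        | _ c d =>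
          have h1 : G.Adj a b := by simpa using he
          have z : ∀ a b : V, c ≠ a → d ≠ a → ed G a s(a, b) ≠ ed G a s(c, d) := by
            intro a b k1 k2
            have := hc.pos_dist_of_ne k1
            have := hc.pos_dist_of_ne k2
            rw [ed_mk, ed_mk, SimpleGraph.dist_self]
            omega
          by_cases k1 : c ≠ a ∧ d ≠ a
          · exact ⟨a, z a b k1.1 k1.2⟩
          · refine ⟨b, ?_⟩
            rw [Sym2.eq_swap (a := a)]
            refine z b a ?_ ?_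
            · rintro rfl
              have : d = a := by
                by_contra hh
                exact k1 ⟨h1.ne.symm, hh⟩
              subst this
              exact hne Sym2.eq_swap
            · rintro rfl
              have : c = a := by
                by_contra hh
                exact k1 ⟨hh, h1.ne.symm⟩
              subst this
              exact hne rfl
      obtain ⟨S', k1, k2, k3⟩ : ∃ S' : Finset V, S ⊆ S' ∧ S'.card ≤ S.card + 1 ∧
          ∀ f ∈ E, ∃ s ∈ S', ed G s e ≠ ed G s f := by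
        by_cases hb : ∀ f ∈ E, ∃ s ∈ S, ed G s e ≠ ed G s f
        · exact ⟨S, Subset.refl _, by omega, hb⟩
        · push Not at hb
          obtain ⟨f, hf, hf'⟩ := hb
          obtain ⟨t, ht⟩ := sepa f (hsub hf) (by rintro rfl; exact heE hf)
          refine ⟨insert t S, subset_insert _ _, card_insert_le _ _, fun g hg => ?_⟩
          by_cases e1 : g = f
          · exact ⟨t, mem_insert_self _ _, e1 ▸ ht⟩
          · obtain ⟨s, hs, hs'⟩ := hres g hg f hf e1
            exact ⟨s, mem_insert_of_mem hs, by rw [hf' s hs]; exact hs'.symm⟩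
      have c1 : (insert e E).card = E.card + 1 := card_insert_of_notMem heE
      have sub1 : insert e E ⊆ G.edgeFinset := insert_subset he hsub
      have c2 := card_le_card sub1
      obtain ⟨S1, b1, b2⟩ := ih _ (by omega) S' (insert e E) rfl sub1 (by
        intro f hf g hg hne
        rcases mem_insert.1 hf with rfl | hf'
        · rcases mem_insert.1 hg with rfl | hg'
          · exact absurd rfl hne
          · exact k3 g hg'
        · rcases mem_insert.1 hg with rfl | hg'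
          · obtain ⟨s, hs, hs'⟩ := k3 f hf'
            exact ⟨s, hs, hs'.symm⟩
          · obtain ⟨s, hs, hs'⟩ := hres f hf' g hg' hne
            exact ⟨s, k1 hs, hs'⟩)
      exact ⟨S1, by omega, b2⟩

theorem both [Fintype V] [DecidableEq V] [DecidableRel G.Adj] (hc : G.Connected)
    (S : Finset V) (hS : S.Nonempty) :
    ((∀ e ∈ G.edgeFinset, ∀ f ∈ G.edgeFinset, e ≠ f → ∃ s ∈ S, ed G s e ≠ ed G s f) →
      ∃ S1 : Finset V, S1.card + Fintype.card V ≤ S.card + G.edgeFinset.card + 1 ∧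
        ∀ u v : V, u ≠ v → ∃ s ∈ S1, G.dist u s ≠ G.dist v s) ∧
    ((∀ u v : V, u ≠ v → ∃ s ∈ S, G.dist u s ≠ G.dist v s) →
      ∃ S1 : Finset V, S1.card + Fintype.card V ≤ S.card + G.edgeFinset.card + 1 ∧
        ∀ e ∈ G.edgeFinset, ∀ f ∈ G.edgeFinset, e ≠ f → ∃ s ∈ S1, ed G s e ≠ ed G s f) := by
  classical
  obtain ⟨r, hr⟩ := hS
  have G0 : Good G S {r} ∅ := by
    refine ⟨fun v hv => ?_, fun x hx y hy h => ?_, by simp, by simp, by simp⟩
    · rw [mem_singleton.1 hv]
      exact ⟨r, hr, r, hr, by simp⟩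
    · exact absurd ((mem_singleton.1 hx).trans (mem_singleton.1 hy).symm) h
  obtain ⟨S1, J, E, hG, hsub, hcard, hdom⟩ := final hc _ S {r} ∅ rfl G0 hr (mem_singleton_self r)
  have hd0 : ∀ y, ∃ u, y ∉ J → G.Adj y u ∧ ∀ s ∈ S1, G.dist u s + 1 = G.dist y s := by
    intro y
    by_cases h : y ∈ J
    · exact ⟨y, fun h' => absurd h h'⟩
    · obtain ⟨u, hu⟩ := hdom y h
      exact ⟨u, fun _ => hu⟩
  choose dm hdm using hd0
  have inj : ∀ a b, a ∉ J → b ∉ J → s(dm a, a) = s(dm b, b) → a = b := by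
    intro a b ha hb e
    rcases Sym2.eq_iff.1 e with h | ⟨h1, h2⟩
    · exact h.2
    · have k1 := (hdm a ha).2 r (hsub hr)
      have k2 := (hdm b hb).2 r (hsub hr)
      rw [h1] at k1
      rw [← h2] at k2
      omega
  have edm : ∀ a, a ∉ J → ∀ s ∈ S1, ed G s s(dm a, a) = G.dist (dm a) s := by
    intro a ha s hs
    have := (hdm a ha).2 s hs
    rw [ed_mk]
    omega
  obtain ⟨E2, hE2⟩ : ∃ E2 : Finset (Sym2 V), E2 = E ∪ Jᶜ.image (fun v => s(dm v, v)) := ⟨_, rfl⟩
  have sub2 : E2 ⊆ G.edgeFinset := by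
    intro e he
    rw [hE2, mem_union] at he
    rcases he with h | h
    · exact mem_edgeFinset.2 (hG.edge e h).1
    · obtain ⟨v, hv, rfl⟩ := mem_image.1 h
      exact mem_edgeFinset.2 (hdm v (mem_compl.1 hv)).1.symm
  have c2 : E2.card + J.card = E.card + Fintype.card V := by
    have d : Disjoint E (Jᶜ.image (fun v => s(dm v, v))) := by
      rw [Finset.disjoint_right]
      intro e he he'
      obtain ⟨v, hv, rfl⟩ := mem_image.1 he
      exact mem_compl.1 hv ((hG.edge _ he').2 v (by simp))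
    rw [hE2, card_union_of_disjoint d,
      card_image_of_injOn (fun a ha b hb e => inj a b (mem_compl.1 ha) (mem_compl.1 hb) e),
      card_compl]
    have := card_le_univ J
    omega
  have c3 := card_le_card sub2
  simp only [card_singleton, card_empty] at hcard
  have tr : ∀ u s t : V, G.dist s t ≤ G.dist u s + G.dist u t := by
    intro u s t
    have := tri hc s u t
    rw [G.dist_comm (u := u) (v := s)]
    omega
  refine ⟨fun hres => ⟨S1, by omega, ?_⟩, fun hres => ?_⟩
  · have key : ∀ u v, u ∈ J → v ∉ J → ∃ s ∈ S1, G.dist u s ≠ G.dist v s := by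
      intro u v hu hv
      obtain ⟨s, hs, t, ht, h⟩ := hG.geoV u hu
      have k1 := (hdm v hv).2 s hs
      have k2 := (hdm v hv).2 t ht
      have k3 := tr (dm v) s t
      by_cases e : G.dist u s = G.dist v s
      · exact ⟨t, ht, by omega⟩
      · exact ⟨s, hs, e⟩
    intro u v hne
    by_cases hu : u ∈ J
    · by_cases hv : v ∈ J
      · exact hG.resV u hu v hv hne
      · exact key u v hu hv
    · by_cases hv : v ∈ J
      · obtain ⟨s, hs, h⟩ := key v u hv hu
        exact ⟨s, hs, h.symm⟩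
      · obtain ⟨s, hs, h⟩ := hres s(dm u, u) (mem_edgeFinset.2 (hdm u hu).1.symm)
          s(dm v, v) (mem_edgeFinset.2 (hdm v hv).1.symm) (fun e => hne (inj u v hu hv e))
        rw [edm u hu s (hsub hs), edm v hv s (hsub hs)] at h
        have k1 := (hdm u hu).2 s (hsub hs)
        have k2 := (hdm v hv).2 s (hsub hs)
        exact ⟨s, hsub hs, by omega⟩
  · have key : ∀ e v, e ∈ E → v ∉ J → ∃ s ∈ S1, ed G s e ≠ ed G s s(dm v, v) := by
      intro e v he hv
      obtain ⟨s, hs, t, ht, h⟩ := hG.geoE e he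
      have k1 := edm v hv s hs
      have k2 := edm v hv t ht
      have k3 := tr (dm v) s t
      by_cases e : ed G s e = ed G s s(dm v, v)
      · exact ⟨t, ht, by omega⟩
      · exact ⟨s, hs, e⟩
    obtain ⟨S2, b1, b2⟩ := greedy hc _ S1 E2 rfl sub2 (by
      intro e he f hf hne
      rw [hE2, mem_union] at he hf
      rcases he with he | he
      · rcases hf with hf | hf
        · exact hG.resE e he f hf hne
        · obtain ⟨v, hv, rfl⟩ := mem_image.1 hf
          exact key e v he (mem_compl.1 hv)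
      · obtain ⟨u, hu, rfl⟩ := mem_image.1 he
        have hu' := mem_compl.1 hu
        rcases hf with hf | hf
        · obtain ⟨s, hs, h⟩ := key f u hf hu'
          exact ⟨s, hs, h.symm⟩
        · obtain ⟨v, hv, rfl⟩ := mem_image.1 hf
          have hv' := mem_compl.1 hv
          obtain ⟨s, hs, h⟩ := hres u v (by rintro rfl; exact hne rfl)
          have k1 := (hdm u hu').2 s (hsub hs)
          have k2 := (hdm v hv').2 s (hsub hs)
          refine ⟨s, hsub hs, ?_⟩
          rw [edm u hu' s (hsub hs), edm v hv' s (hsub hs)]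
          omega)
    exact ⟨S2, by omega, b2⟩

theorem main (V : Type) [Fintype V] [DecidableEq V] (G : SimpleGraph V) [DecidableRel G.Adj]
    (hc : G.Connected) (h2 : Fintype.card V ≠ 2) :
    |((sInf {k : ℕ | ∃ S : Finset V, S.card = k ∧
          ∀ u v : V, u ≠ v → ∃ w ∈ S, G.dist u w ≠ G.dist v w} : ℕ) : ℤ)
      - ((sInf {k : ℕ | ∃ S : Finset V, S.card = k ∧
          ∀ a b c d : V, G.Adj a b → G.Adj c d → s(a, b) ≠ s(c, d) →
            ∃ w ∈ S, min (G.dist a w) (G.dist b w) ≠ min (G.dist c w) (G.dist d w)} : ℕ) : ℤ)|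
      ≤ (G.edgeFinset.card : ℤ) - (Fintype.card V : ℤ) + 1 := by
  have conv : ∀ S : Finset V, (∀ a b c d : V, G.Adj a b → G.Adj c d → s(a, b) ≠ s(c, d) →
      ∃ w ∈ S, min (G.dist a w) (G.dist b w) ≠ min (G.dist c w) (G.dist d w)) ↔
      (∀ e ∈ G.edgeFinset, ∀ f ∈ G.edgeFinset, e ≠ f → ∃ s ∈ S, ed G s e ≠ ed G s f) := by
    intro S
    constructor
    · intro h e he f hf hne
      induction e using Sym2.ind with
      | _ a b =>
      induction f using Sym2.ind with
      | _ c d => exact h a b c d (by simpa using he) (by simpa using hf) hne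
    · intro h a b c d h1 h3 hne
      exact h s(a, b) (by simpa using h1) s(c, d) (by simpa using h3) hne
  obtain ⟨r⟩ := hc.nonempty
  have u1 : ∀ u v : V, u ≠ v → ∃ w ∈ (univ : Finset V), G.dist u w ≠ G.dist v w := by
    intro u v h
    refine ⟨u, mem_univ _, ?_⟩
    have := hc.pos_dist_of_ne h.symm
    rw [SimpleGraph.dist_self]
    omega
  obtain ⟨U, hU0, hU⟩ := (both hc univ ⟨r, mem_univ r⟩).2 u1
  obtain ⟨A, hA⟩ : ∃ A : Set ℕ, A = {k : ℕ | ∃ S : Finset V, S.card = k ∧
          ∀ u v : V, u ≠ v → ∃ w ∈ S, G.dist u w ≠ G.dist v w} := ⟨_, rfl⟩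
  obtain ⟨B, hB⟩ : ∃ B : Set ℕ, B = {k : ℕ | ∃ S : Finset V, S.card = k ∧
          ∀ a b c d : V, G.Adj a b → G.Adj c d → s(a, b) ≠ s(c, d) →
            ∃ w ∈ S, min (G.dist a w) (G.dist b w) ≠ min (G.dist c w) (G.dist d w)} := ⟨_, rfl⟩
  rw [← hA, ← hB]
  have mA : sInf A ∈ A := Nat.sInf_mem ⟨(univ : Finset V).card, by rw [hA]; exact ⟨univ, rfl, u1⟩⟩
  have mB : sInf B ∈ B := Nat.sInf_mem ⟨U.card, by rw [hB]; exact ⟨U, rfl, (conv U).2 hU⟩⟩
  have lA : ∀ S : Finset V, (∀ u v : V, u ≠ v → ∃ w ∈ S, G.dist u w ≠ G.dist v w) →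
      sInf A ≤ S.card := fun S h => Nat.sInf_le (by rw [hA]; exact ⟨S, rfl, h⟩)
  have lB : ∀ S : Finset V, (∀ e ∈ G.edgeFinset, ∀ f ∈ G.edgeFinset, e ≠ f →
      ∃ s ∈ S, ed G s e ≠ ed G s f) → sInf B ≤ S.card :=
    fun S h => Nat.sInf_le (by rw [hB]; exact ⟨S, rfl, (conv S).2 h⟩)
  have hm : Fintype.card V ≤ G.edgeFinset.card + 1 := by
    have := hc.card_vert_le_card_edgeSet_add_one
    rwa [Nat.card_eq_fintype_card, Nat.card_eq_fintype_card, ← edgeFinset_card] at this
  by_cases h1 : Fintype.card V ≤ 1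
  · have : Subsingleton V := Fintype.card_le_one_iff_subsingleton.1 h1
    have a := lA ∅ (fun u v h => absurd (Subsingleton.elim u v) h)
    have b := lB ∅ (fun e _ f _ h => absurd (Subsingleton.elim e f) h)
    simp only [card_empty] at a b
    rw [abs_le]
    omega
  · obtain ⟨a, ha⟩ : ∃ a, a = sInf A := ⟨_, rfl⟩
    obtain ⟨b, hb⟩ : ∃ b, b = sInf B := ⟨_, rfl⟩
    rw [← ha] at mA lA ⊢
    rw [← hb] at mB lB ⊢
    rw [hA] at mA
    rw [hB] at mB
    obtain ⟨SA, a1, a2⟩ := mA
    obtain ⟨SB, b1, b2⟩ := mB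
    have b3 := (conv SB).1 b2
    obtain ⟨u, v, huv⟩ := Fintype.exists_pair_of_one_lt_card (α := V) (by omega)
    obtain ⟨s, hs, -⟩ := a2 u v huv
    obtain ⟨e, he, f, hf, hef⟩ := one_lt_card.1 (show 1 < G.edgeFinset.card by omega)
    obtain ⟨t, ht, -⟩ := b3 e he f hf hef
    obtain ⟨S1, c1, c2⟩ := (both hc SA ⟨s, hs⟩).2 a2
    obtain ⟨S2, d1, d2⟩ := (both hc SB ⟨t, ht⟩).1 b3
    have := lB S1 c2
    have := lA S2 d2
    rw [abs_le]
    omega

end Pool.Agent.H.MP_a20e8c_co
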